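import Pool.Agent.X86.AF.Inst

/-!
# MP_4648ce_an : the values of the dimension of asymptotic sets of the Lüroth map

The Lüroth map is `L 0 = 0` and `L x = n (n + 1) x - n` for `x ∈ (1/(n+1), 1/n]`, `n ≥ 1`; the
asymptotic set of `x ∈ [0, 1]` is `AS x = {y ∈ [0, 1] : |L^n x - L^n y| → 0}`.  We prove that the
set of values of `x ↦ dim_H AS x` on `[0, 1]` is the closed interval `[0, 1/2]`.
-/

open Set Filter Topology
open scoped ENNReal

namespace Pool.Agent.Results.MP_4648ce_an.ImageOfDimension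

/-- The defining properties of the Lüroth map on `[0, 1]` (they determine `L` on `[0, 1]`). -/
def IsLuroth (L : ℝ → ℝ) : Prop :=
  L 0 = 0 ∧ ∀ n : ℕ, 1 ≤ n → ∀ x ∈ Ioc (1 / ((n:ℝ) + 1)) (1 / n), L x = n * (n + 1) * x - n

/-- The asymptotic set of `x` in `[0, 1]` under the map `L`. -/
def AS (L : ℝ → ℝ) (x : ℝ) : Set ℝ :=
  {y | y ∈ Icc (0:ℝ) 1 ∧ Tendsto (fun n : ℕ => |L^[n] x - L^[n] y|) atTop (𝓝 0)}

/-- **The image of `x ↦ dim_H AS x` on `[0, 1]` is `[0, 1/2]`.** -/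
theorem _root_.Pool.Agent.Results.MP_4648ce_an.ImageOfDimension.result :
    (∃ L, IsLuroth L) ∧
    ∀ L : ℝ → ℝ, IsLuroth L →
      {α : ℝ≥0∞ | ∃ x ∈ Icc (0:ℝ) 1, dimH (AS L x) = α} = Icc 0 (1 / 2) := by
  constructor
  · refine ⟨fun x => ⌊1 / x⌋ * (⌊1 / x⌋ + 1) * x - ⌊1 / x⌋, ?_, ?_⟩
    · simp
    · intro n hn x hx
      have hnr : (1:ℝ) ≤ n := by exact_mod_cast hn
      have hx0 : 0 < x := lt_trans (by positivity) hx.1
      have h1 : ⌊1 / x⌋ = (n:ℤ) := by
        rw [Int.floor_eq_iff]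
        obtain ⟨a1, a2⟩ := hx
        rw [div_lt_iff₀ (by linarith)] at a1
        rw [le_div_iff₀ (by linarith)] at a2
        push_cast
        constructor
        · rw [le_div_iff₀ hx0]; linarith
        · rw [div_lt_iff₀ hx0]; linarith
      simp only [h1]
      push_cast
      ring
  · intro L hL
    have h1 := Pool.Agent.X86.AF.image_eq (Pool.Agent.X86.AF.luroth_isMap' hL.1 hL.2)
    rw [Pool.Agent.X86.AF.image_Icc] at h1
    exact h1

end Pool.Agent.Results.MP_4648ce_an.ImageOfDimension
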